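import Mathlib
import Pool.Agent.Helper383.Box.Final

set_option autoImplicit false

namespace Pool.Agent.Results.MP_602efc_co.NearDiagonal

open Helper383.Box Finset Filter Topology

/-- `nkd k d` is `n(k,d)`: the largest `n` such that `K_n` has a bipartite covering of order `k` and
size `d` (first conjunct). For `d = k + r`: explicit lower and upper bounds for all `k, r`; the limit
of `n(k,k+r) / 2^(k+r)` for every fixed `r`; the exact value for `r = 1`; and for every fixed
`r ≥ 2` the product lower bound is not attained once `k` is large. -/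
theorem result :
    (∀ k d : ℕ, IsGreatest {n | HasCovering k d n} (nkd k d)) ∧
    (∀ k r : ℕ,
      ∑ i ∈ range (k / 2 + 1), (k + r).choose i + ∑ i ∈ Ioc (k / 2) k, k.choose i ≤
        nkd k (k + r) ∧
      2 * nkd k (k + r) ≤ 2 ^ (k + r) + 2 ^ k) ∧
    (∀ r : ℕ, Tendsto (fun k : ℕ => (nkd k (k + r) : ℝ) / 2 ^ (k + r)) atTop
      (𝓝 ((1 + (1 / 2) ^ r) / 2))) ∧
    (∀ d : ℕ, 2 ≤ d → nkd (d - 1) d = 3 * 2 ^ (d - 2)) ∧
    (∀ r : ℕ, 2 ≤ r →
      ∀ᶠ k in atTop, ∏ i ∈ range k, ((k + r + i) / k + 1) < nkd k (k + r)) :=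
  ⟨isGreatest, fun k r => ⟨lower k r, nkd_le k (k + r)⟩, tendsto_nkd, exact, prod_lt⟩

end Pool.Agent.Results.MP_602efc_co.NearDiagonal
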